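import Pool.Agent.Run7.h902.SRef

/-!
# Bloch's conjecture for correspondences on surfaces: reduction to a projection

Let `V` be a component of a smooth complete intersection, of dimension `2`, of `q` hypersurfaces of
multidegrees `(d_{l,a})` in the product of the projective lines with the coordinates `x_a`,
`a = 1, ..., 2 + q`, with `Σ_l d_{l,a} = m_a + 2`, so that `K_V = O(m_a)`, and let `V 1` be the image of `V`
under the projection which forgets one coordinate `x_{a0}`; `V ⇢ V 1` is of finite degree `b`. The
geometric genus of `V 1` is arbitrary.

Let `W` be any surface and `Ω` an algebraically closed field of transcendence degree `2` over `ℂ` which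
contains the function field of `W`. A cycle `Z = ∑ m_i Z_i` of dimension `2` on `W × V` all of whose
components dominate `W` and `V` is the same as a finite integral combination `c = ∑ c(σ) σ` of
embeddings `σ : ℂ(V) → Ω` over `ℂ` which is invariant under the Galois group of `Ω` over `ℂ(W)`: `Z_i`
is an orbit of embeddings with the coefficient `m_i`. The theorem is about all `c`; no invariance is
needed. `[Z]^* = 0` on `H^{2,0}(V)` means that `∑ c(σ) σ^* ω = 0` for all regular canonical forms `ω` on
`V` (`NullTrace`, `Pool/Agent/R882/ZC.lean`). Let `N` be the number of the different restrictions to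
`ℂ(V 1)` of the embeddings `σ` with `c(σ) ≠ 0` (`numBelow`): the number of the points of `V 1` below the
points of `Z` over a general point of `W`. The number of the points of `Z` itself can be `b` times as
large.

**The theorem.** Suppose that `[Z]^* = 0` on `H^{2,0}(V)`, and that `N ≤ m_a + 1` for all `a ≠ a0`. Nothing
is assumed about the signs of the coefficients, about `m_{a0}`, or about `V 1`.

1. `Z` is the pullback of a cycle `Z_1` on `W × V 1` with `[Z_1]^* = 0` on `H^{2,0}(V 1)`, with at most `N`
   points over a general point of `W`. So the open direction of the question for these
   correspondences (`W = V = X`) is reduced to the same question for `V 1`.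
2. If `b ≤ m_{a0} + 1` then `Z = 0`: there are no such correspondences.
3. If `V 1` is the first surface of a tower of height `N` (`MixedTower`,
   `Pool/Agent/Run7/h902/STower.lean`) over a surface with a property `Base`, for instance over a
   unirational surface, then `Z` is the pullback of a cycle `Z'` on `W × V'` for a surface `V'` with the
   property `Base` (one of the surfaces of the tower) with `[Z']^* = 0` on `H^{2,0}(V')`.

In 3., if the tower is over a unirational surface, then `CH_0(V') = ℤ`, so `Z_*` is zero on all cycles of
degree zero (standard, not formalised here), and this is the open direction of the question for these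
correspondences (`[Γ]_*^{2,0} = 0` if and only if `[Γ]^* = 0` on `H^{2,0}`, by duality and complex
conjugation). The components of a cycle which do not dominate both factors have no effect on
`H^{2,0}`, and act by zero on the kernel of the Albanese map.

The starting file `NullTraceLines` of this problem has the first part under the hypothesis
`p_g(V 1) = 0`, and `EffectiveLinesTowers` is about effective cycles and towers, where the number of the
points of `Z` is at most `m_a + 1`, instead of the number `N` of the points below. For the proof see
`MP_762f97_ag.AllCyclesLinesTowers`.

`K` is the function field of `V` and `x` its generic point.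
-/

set_option autoImplicit false
set_option linter.overlappingInstances false

open FF Module MvPolynomial Pool.Agent.W602.GT
open Pool.Agent.R882.HL (IsSmooth IsGenericPoint)
open Pool.Agent.R882.ZC (NullTrace)
open Pool.Agent.Run7.h902.SC (numBelow MixedTower NullPullback)

namespace Pool.Agent.Results.MP_31564d_ag.ReductionToProjection

/-- **Reduction to a projection.** Let `V` be a component, with function field `K` and generic point
`x`, of a smooth complete intersection of dimension `2` of hypersurfaces of multidegrees `d k` in a
product of projective lines, with canonical divisor `O(m i)`, and let `V 1` be the image of `V` under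
the projection which forgets the coordinate `i0`. Let `c` be an integral combination of embeddings of
`K` in an algebraically closed field of transcendence degree `2` with null trace, with at most
`m i + 1` points over `V 1` for `i ≠ i0`. Then `c` is pulled back from a combination with null trace on
`V 1`; it is zero if the degree over `V 1` is at most `m i0 + 1`; and it is pulled back from a
combination with null trace on a surface with the property `Base` if `V 1` is the first surface of a
tower over such a surface. -/
theorem result {q : ℕ} {F : Fin q → MvPolynomial (Fin (2 + q)) ℂ}
    {d : Fin q → Fin (2 + q) → ℕ} (deg : ∀ k i, (F k).degreeOf i ≤ d k i)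
    {m : Fin (2 + q) → ℕ} (canonical : ∀ i, ∑ k, d k i = m i + 2) (smooth : IsSmooth d F)
    {K : Type} [Field K] [Algebra ℂ K] {x : Fin (2 + q) → K} (point : IsGenericPoint 2 F x)
    {i0 : Fin (2 + q)} {Ω : Type} [Field Ω] [Algebra ℂ Ω] [IsAlgClosed Ω]
    (hΩ : Algebra.trdeg ℂ Ω = 2) (c : (K →ₐ[ℂ] Ω) →₀ ℤ) (hc : NullTrace 2 c)
    (positive : ∀ i, i ≠ i0 → numBelow x i0 c ≤ m i + 1) :
    (∃ c1 : (IntermediateField.adjoin ℂ (x '' {i0}ᶜ) →ₐ[ℂ] Ω) →₀ ℤ, NullTrace 2 c1 ∧
      c1.support.card ≤ numBelow x i0 c ∧
      ∀ σ : K →ₐ[ℂ] Ω, c σ = c1 (σ.comp (IntermediateField.adjoin ℂ (x '' {i0}ᶜ)).val)) ∧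
    (Module.finrank (IntermediateField.adjoin ℂ (x '' {i0}ᶜ)) K ≤ m i0 + 1 → c = 0) ∧
    ∀ Base : ∀ (E : Type) [Field E] [Algebra ℂ E], Prop,
      MixedTower 2 Base (IntermediateField.adjoin ℂ (x '' {i0}ᶜ)) (numBelow x i0 c) →
        NullPullback 2 Base c :=
  Pool.Agent.Run7.h902.SC.lines_full one_le_two (by rw [hΩ]; rfl) deg canonical smooth point
    positive hc

end Pool.Agent.Results.MP_31564d_ag.ReductionToProjection
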